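import Pool.Agent.Q16.SubLat.Final

set_option autoImplicit false

namespace Pool.Agent.Results.MP_d4b74c_al.NotFinAx

open Pool.Agent.Q16.SubLat

universe u

/-- The class `𝒦` of lattices embeddable in subspace lattices of vector spaces over division rings
is not specified, among (nonempty) lattices, by any finite set of first-order sentences. -/
theorem result : ¬ ∃ Γ : Set latLang.Sentence, Γ.Finite ∧
    ∀ (L : Type u) [Lattice L] [Nonempty L], InK L ↔ ∀ φ ∈ Γ, Sat L φ :=
  main

end Pool.Agent.Results.MP_d4b74c_al.NotFinAx
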